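import Pool.Agent.KT3.StmtsC

/-!
Squad KT3, row XPL: closing at the vertex `0` for a mixing class.
-/

set_option autoImplicit false

open Matrix Filter Topology

namespace Pool.Agent.KT3.H86

open Pool.Agent.PFS Pool.Agent.PFJ Pool.Agent.NBT Pool.Agent.KT3

section

variable {n : ℕ} {C : Set (V n)}

/-- `±u ≤ r f` -/
def Bx (C : Set (V n)) (r : ℝ) (f u : V n) : Prop :=
  r • f - u ∈ closure C ∧ r • f + u ∈ closure C

theorem Bx.neg {r : ℝ} {f u : V n} (hu : Bx C r f u) : Bx C r f (-u) :=
  ⟨by rw [sub_neg_eq_add]; exact hu.2, by rw [← sub_eq_add_neg]; exact hu.1⟩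

theorem Bx.add (h : PCone C) {r r' : ℝ} {f u u' : V n} (hu : Bx C r f u) (hu' : Bx C r' f u') :
    Bx C (r + r') f (u + u') := by
  constructor
  · have := h.cl_add hu.1 hu'.1
    have e : r • f - u + (r' • f - u') = (r + r') • f - (u + u') := by
      rw [add_smul]; abel
    rwa [e] at this
  · have := h.cl_add hu.2 hu'.2
    have e : r • f + u + (r' • f + u') = (r + r') • f + (u + u') := by
      rw [add_smul]; abel
    rwa [e] at this

theorem Bx.sub (h : PCone C) {r r' : ℝ} {f u u' : V n} (hu : Bx C r f u) (hu' : Bx C r' f u') :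
    Bx C (r + r') f (u - u') := by
  rw [sub_eq_add_neg]
  exact hu.add h hu'.neg

theorem Bx.mono (h : PCone C) {r r' : ℝ} {f u : V n} (hf : f ∈ closure C) (hr : r ≤ r')
    (hu : Bx C r f u) : Bx C r' f u := by
  have h1 := h.cl_smul hf (sub_nonneg.mpr hr)
  constructor
  · have := h.cl_add hu.1 h1
    have e : r • f - u + (r' - r) • f = r' • f - u := by
      rw [sub_smul]; abel
    rwa [e] at this
  · have := h.cl_add hu.2 h1
    have e : r • f + u + (r' - r) • f = r' • f + u := by
      rw [sub_smul]; abel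
    rwa [e] at this

/-- change of the bound: `f ≤ c f'` -/
theorem Bx.tr (h : PCone C) {r c : ℝ} {f f' u : V n} (hr : 0 ≤ r) (hff : c • f' - f ∈ closure C)
    (hu : Bx C r f u) : Bx C (r * c) f' u := by
  have h1 := h.cl_smul hff hr
  constructor
  · have := h.cl_add hu.1 h1
    have e : r • f - u + r • (c • f' - f) = (r * c) • f' - u := by
      rw [smul_sub, smul_smul]; abel
    rwa [e] at this
  · have := h.cl_add hu.2 h1
    have e : r • f + u + r • (c • f' - f) = (r * c) • f' + u := by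
      rw [smul_sub, smul_smul]; abel
    rwa [e] at this

theorem Bx.sum (h : PCone C) {ι : Type} (s : Finset ι) {r : ℝ} {f : V n} {u : ι → V n}
    (hu : ∀ i ∈ s, Bx C r f (u i)) : Bx C (s.card * r) f (∑ i ∈ s, u i) := by
  classical
  induction s using Finset.induction_on with
  | empty =>
    constructor
    · simpa using h.zero_cl
    · simpa using h.zero_cl
  | insert a s ha ih =>
    have h1 := (hu a (Finset.mem_insert_self a s)).add h
      (ih fun i hi => hu i (Finset.mem_insert_of_mem hi))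
    rw [Finset.sum_insert ha, Finset.card_insert_of_notMem ha]
    have e : r + (s.card : ℝ) * r = ((s.card + 1 : ℕ) : ℝ) * r := by push_cast; ring
    rwa [e] at h1

theorem Bx.lim {ι : Type} {l : Filter ι} [l.NeBot] {r : ℝ} {f : V n} {u : ι → V n} {v : V n}
    (hu : ∀ i, Bx C r f (u i)) (hv : Tendsto u l (𝓝 v)) : Bx C r f v :=
  ⟨isClosed_closure.mem_of_tendsto (hv.const_sub (r • f)) (Eventually.of_forall fun i => (hu i).1),
    isClosed_closure.mem_of_tendsto (hv.const_add (r • f)) (Eventually.of_forall fun i => (hu i).2)⟩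

theorem Bx.norm {B : ℝ} (hB : ∀ x y : V n, x ∈ closure C → y - x ∈ closure C → ‖x‖ ≤ B * ‖y‖)
    {r : ℝ} (hr : 0 ≤ r) {f u : V n} (hu : Bx C r f u) : ‖u‖ ≤ (2 * B + 1) * r * ‖f‖ := by
  have h1 : ‖r • f + u‖ ≤ B * ‖(2 * r) • f‖ := by
    refine hB _ _ hu.2 ?_
    have e : (2 * r) • f - (r • f + u) = r • f - u := by
      rw [two_mul, add_smul]; abel
    rw [e]; exact hu.1
  rw [norm_smul, Real.norm_of_nonneg (by positivity : (0 : ℝ) ≤ 2 * r)] at h1
  have h2 : ‖u‖ ≤ ‖r • f + u‖ + ‖r • f‖ := by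
    have e : u = (r • f + u) - r • f := by abel
    calc ‖u‖ = ‖(r • f + u) - r • f‖ := by rw [← e]
      _ ≤ _ := norm_sub_le _ _
  rw [norm_smul, Real.norm_of_nonneg hr] at h2
  nlinarith [h1, h2]

theorem bx_ball (h : PCone C) {p : V n} (hp : p ∈ C) {δ : ℝ} (hδ : 0 < δ) :
    ∃ η : ℝ, 0 < η ∧ ∀ u : V n, ‖u‖ < η → Bx C δ p u := by
  have h1 : δ • p ∈ C := h.smul p hp δ hδ
  obtain ⟨η, hη, hb⟩ := Metric.isOpen_iff.mp h.isOpen _ h1
  refine ⟨η, hη, fun u hu => ⟨subset_closure (hb ?_), subset_closure (hb ?_)⟩⟩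
  · rw [Metric.mem_ball, dist_eq_norm]
    have e : δ • p - u - δ • p = -u := by abel
    rw [e, norm_neg]; exact hu
  · rw [Metric.mem_ball, dist_eq_norm]
    have e : δ • p + u - δ • p = u := by abel
    rw [e]; exact hu

/-- the scaled group element as a linear map -/
noncomputable def lm (c : ℝ) (g : GL (Fin n) ℝ) : V n →ₗ[ℝ] V n where
  toFun x := c • act g x
  map_add' x y := by rw [CC.act_add, smul_add]
  map_smul' t x := by rw [CC.act_smul, RingHom.id_apply, smul_comm]

theorem lm_apply (c : ℝ) (g : GL (Fin n) ℝ) (x : V n) : lm c g x = c • act g x := rfl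

end

theorem xpl (hPHE : PheStmt) (hUNI : UniStmt) (hATT : AttStmt) (hRET : RetStmt) : XplStmt := by
  intro n k C Γ h T hT a ha ε S hε
  have hP : PCone C := h.toCC.toPCone
  have hk3 : (3 : ℝ) ≤ ((k + 1 : ℕ) : ℝ) := by exact_mod_cast h.three
  obtain ⟨κ, hκ, hκs⟩ := hUNI n C Γ (k + 1) h (1 / 400) (by norm_num)
  obtain ⟨W, hTW, hW⟩ := hRET n k C Γ h T hT a
  have hWC : ∑ i, W i ∈ C := (hT.pes W hTW).1.sum_mem
  obtain ⟨ε₁, hε₁, hmix⟩ := hT.mix W hWC
  obtain ⟨B, hB, hBn⟩ := hP.normal
  set fW : V n := ∑ i, W i with hfW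
  have hfWcl : fW ∈ closure C := subset_closure hWC
  -- the gap
  obtain ⟨g₀, hg₀, hga⟩ : ∃ g₀ : ℝ, 0 < g₀ ∧ ∀ i, i ≠ 0 → g₀ ≤ a 0 - a i := by
    obtain ⟨i0, hi0⟩ := Finite.exists_min (fun i : Fin (k + 1) => if i = 0 then 1 else a 0 - a i)
    refine ⟨if i0 = 0 then 1 else a 0 - a i0, ?_, fun i hi => ?_⟩
    · split_ifs with h0
      · exact one_pos
      · have := ha i0 h0
        linarith
    · have := hi0 i
      simp only [if_neg hi] at this
      exact this
  -- the constants
  obtain ⟨δ, hδ, hδε, hδ3, hδn⟩ : ∃ δ : ℝ, 0 < δ ∧ δ ≤ ε / 16 ∧ δ ≤ 1 / 300 ∧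
      (2 * B + 1) * (60 * δ) * ‖fW‖ < ε₁ / 2 := by
    set D : ℝ := (2 * B + 1) * 60 * (‖fW‖ + 1) with hD
    have hDp : 0 < D := by
      have := norm_nonneg fW
      positivity
    refine ⟨min (ε / 16) (min (1 / 300) (ε₁ / (4 * D))), ?_, min_le_left _ _,
      le_trans (min_le_right _ _) (min_le_left _ _), ?_⟩
    · exact lt_min (by positivity) (lt_min (by norm_num) (by positivity))
    · set δ := min (ε / 16) (min (1 / 300) (ε₁ / (4 * D))) with hδd
      have h1 : δ ≤ ε₁ / (4 * D) := le_trans (min_le_right _ _) (min_le_right _ _)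
      have h0 : 0 < δ := lt_min (by positivity) (lt_min (by norm_num) (by positivity))
      have h2 : δ * D ≤ ε₁ / 4 := by
        calc δ * D ≤ ε₁ / (4 * D) * D := mul_le_mul_of_nonneg_right h1 hDp.le
          _ = ε₁ / 4 := by field_simp
      have h3 : (2 * B + 1) * (60 * δ) * ‖fW‖ ≤ δ * D := by
        rw [hD]
        have : (2 * B + 1) * (60 * δ) * ‖fW‖ ≤ (2 * B + 1) * (60 * δ) * (‖fW‖ + 1) :=
          mul_le_mul_of_nonneg_left (by linarith) (by positivity)
        calc _ ≤ _ := this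
          _ = _ := by ring
      linarith
  set δ' : ℝ := δ / ((k + 1 : ℕ) : ℝ) with hδ'
  have hδ'0 : 0 < δ' := by positivity
  have hδ'3 : δ' ≤ δ / 3 := by
    rw [hδ']
    exact div_le_div_of_nonneg_left hδ.le (by norm_num) hk3
  obtain ⟨η, hη, hηb⟩ := bx_ball hP hWC hδ'0
  set q₀ : ℝ := min 1 (1 / (250 * κ)) with hq₀
  have hq0 : 0 < q₀ := lt_min one_pos (by positivity)
  have hq1 : q₀ ≤ 1 := min_le_left _ _
  have hqκ : κ * q₀ ≤ 1 / 250 := by
    calc κ * q₀ ≤ κ * (1 / (250 * κ)) := mul_le_mul_of_nonneg_left (min_le_right _ _) hκ.le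
      _ = 1 / 250 := by field_simp
  set σ₀ : ℝ := (k : ℝ) / (q₀ * g₀) with hσ₀
  have hσ₀0 : 0 ≤ σ₀ := by positivity
  obtain ⟨w, z, g, s, σ, hTw, hTz, hnear, hg, hs, hσS, hact⟩ :=
    hW (min η (ε₁ / 2)) (max S σ₀) (lt_min hη (by positivity))
  have hσ1 : S ≤ σ := le_trans (le_max_left _ _) hσS
  have hσ2 : σ₀ ≤ σ := le_trans (le_max_right _ _) hσS
  have hσ0 : 0 ≤ σ := le_trans hσ₀0 hσ2
  have hkq : (k : ℝ) * Real.exp (-(g₀ * σ)) ≤ q₀ := by
    have h1 : (k : ℝ) ≤ q₀ * (g₀ * σ) := by
      have : σ₀ * (q₀ * g₀) ≤ σ * (q₀ * g₀) := mul_le_mul_of_nonneg_right hσ2 (by positivity)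
      rw [hσ₀, div_mul_cancel₀ _ (by positivity)] at this
      linarith
    have h2 : g₀ * σ ≤ Real.exp (g₀ * σ) := by
      have := Real.add_one_le_exp (g₀ * σ)
      linarith
    have h3 : (k : ℝ) ≤ q₀ * Real.exp (g₀ * σ) :=
      le_trans h1 (mul_le_mul_of_nonneg_left h2 hq0.le)
    calc (k : ℝ) * Real.exp (-(g₀ * σ)) ≤ q₀ * Real.exp (g₀ * σ) * Real.exp (-(g₀ * σ)) :=
          mul_le_mul_of_nonneg_right h3 (Real.exp_pos _).le
      _ = q₀ := by rw [mul_assoc, ← Real.exp_add, add_neg_cancel, Real.exp_zero, mul_one]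
  -- vertices
  have hwP := hT.pes w hTw
  have hzP := hT.pes z hTz
  have hwcl : ∀ i, w i ∈ closure C := fun i => hwP.1.cl i
  have hzcl : ∀ i, z i ∈ closure C := fun i => hzP.1.cl i
  set f : V n := ∑ i, w i with hf
  have hfC : f ∈ C := hwP.1.sum_mem
  have hfcl : f ∈ closure C := subset_closure hfC
  have hwW : ∀ i, Bx C δ' fW (w i - W i) := fun i =>
    hηb _ (lt_of_lt_of_le (hnear i).1 (min_le_left _ _))
  have hzW : ∀ i, Bx C δ' fW (z i - W i) := fun i =>
    hηb _ (lt_of_lt_of_le (hnear i).2 (min_le_left _ _))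
  have hffW : Bx C δ fW (f - fW) := by
    have h1 := Bx.sum hP Finset.univ (r := δ') (f := fW) (u := fun i => w i - W i)
      (fun i _ => hwW i)
    rw [Finset.sum_sub_distrib, Finset.card_univ, Fintype.card_fin] at h1
    have e : ((k + 1 : ℕ) : ℝ) * δ' = δ := by
      rw [hδ']
      field_simp
    rwa [e] at h1
  have hfW2 : (2 : ℝ) • f - fW ∈ closure C := by
    have h1 := h.toCC.toPCone.cl_smul hffW.2 (t := 2) (by norm_num)
    have h2 := hP.cl_smul hfWcl (t := 1 - 2 * δ) (by linarith)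
    have h3 := hP.cl_add h1 h2
    have e : (2 : ℝ) • (δ • fW + (f - fW)) + (1 - 2 * δ) • fW = (2 : ℝ) • f - fW := by
      rw [smul_add, smul_smul, smul_sub, sub_smul, one_smul, two_smul ℝ fW]
      abel
    rwa [e] at h3
  have hf2 : (2 : ℝ) • fW - f ∈ closure C := by
    have h2 := hP.cl_smul hfWcl (t := 1 - δ) (by linarith)
    have h3 := hP.cl_add hffW.1 h2
    have e : δ • fW - (f - fW) + (1 - δ) • fW = (2 : ℝ) • fW - f := by
      rw [sub_smul, one_smul, two_smul ℝ fW]
      abel
    rwa [e] at h3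
  have hzw : ∀ i, Bx C (3 * δ) f (z i - w i) := by
    intro i
    have h1 := (hzW i).sub hP (hwW i)
    have e : z i - W i - (w i - W i) = z i - w i := by abel
    rw [e] at h1
    exact ((h1.tr hP (by linarith) hfW2).mono hP hfcl (by linarith))
  -- the linear map
  set H : V n →ₗ[ℝ] V n := lm (Real.exp (-(a 0 * σ)) * s) g with hH
  have hHa : ∀ x, H x = Real.exp (-(a 0 * σ)) • (s • act g x) := by
    intro x
    rw [hH, lm_apply, smul_smul]
  have hHw : ∀ i, H (w i) = Real.exp (-((a 0 - a i) * σ)) • z i := by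
    intro i
    rw [hHa, hact, smul_smul, ← Real.exp_add]
    congr 2
    ring
  have hHw0 : H (w 0) = z 0 := by
    rw [hHw, sub_self, zero_mul, neg_zero, Real.exp_zero, one_smul]
  have hHcl : ∀ x ∈ closure C, H x ∈ closure C := by
    intro x hx
    rw [hHa]
    exact hP.cl_smul (hP.cl_smul (h.toCC.act_cl hg hx) hs.le) (Real.exp_pos _).le
  -- the support functional
  obtain ⟨φ, hφ⟩ := hPHE n C Γ (k + 1) h w hwP 0
  have hφf : φ f = 1 := by
    rw [hf, map_sum, Finset.sum_eq_single (0 : Fin (k + 1)) (fun j _ hj => hφ.zero j hj)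
      (fun h0 => absurd (Finset.mem_univ _) h0), hφ.one]
  have hfsplit : w 0 + fS w ({0}ᶜ : Finset (Fin (k + 1))) = f := by
    rw [hf, ← fS_add_compl w {0}, fS_single]
  have hfw0 : f - w 0 ∈ closure C := by
    have e : f - w 0 = fS w ({0}ᶜ : Finset (Fin (k + 1))) := by rw [← hfsplit]; abel
    rw [e]
    exact fS_cl hP hwcl _
  -- images
  have hziup : ∀ i, (1 + 3 * δ) • f - z i ∈ closure C := by
    intro i
    have h1 : f - w i ∈ closure C := by
      have e : f - w i = fS w ({i}ᶜ : Finset (Fin (k + 1))) := by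
        rw [hf, ← fS_add_compl w {i}, fS_single]; abel
      rw [e]
      exact fS_cl hP hwcl _
    have h2 := hP.cl_add h1 (hzw i).1
    have e : f - w i + ((3 * δ) • f - (z i - w i)) = (1 + 3 * δ) • f - z i := by
      rw [add_smul, one_smul]; abel
    rwa [e] at h2
  set q : ℝ := Real.exp (-(g₀ * σ)) with hq
  have hqp : 0 < q := Real.exp_pos _
  have hHfS : ((k : ℝ) * q * (1 + 3 * δ)) • f - H (fS w ({0}ᶜ : Finset (Fin (k + 1)))) ∈
      closure C := by
    have h1 : ∑ i ∈ ({0}ᶜ : Finset (Fin (k + 1))), (q • ((1 + 3 * δ) • f) - H (w i)) ∈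
        closure C := by
      refine hP.cl_sum fun i hi => ?_
      have hi0 : i ≠ 0 := by
        intro h0
        rw [Finset.mem_compl, Finset.mem_singleton] at hi
        exact hi h0
      have h2 : Real.exp (-((a 0 - a i) * σ)) ≤ q := by
        rw [hq]
        refine Real.exp_le_exp.mpr ?_
        have := mul_le_mul_of_nonneg_right (hga i hi0) hσ0
        linarith
      rw [hHw i]
      have h3 := hP.cl_smul (hziup i) hqp.le
      have h4 := hP.cl_smul (hzcl i) (sub_nonneg.mpr h2)
      have h5 := hP.cl_add h3 h4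
      have e : q • ((1 + 3 * δ) • f - z i) + (q - Real.exp (-((a 0 - a i) * σ))) • z i
          = q • ((1 + 3 * δ) • f) - Real.exp (-((a 0 - a i) * σ)) • z i := by
        rw [smul_sub, sub_smul]; abel
      rwa [e] at h5
    rw [Finset.sum_sub_distrib, Finset.sum_const, Finset.card_compl, Finset.card_singleton,
      Fintype.card_fin, Nat.add_sub_cancel, ← map_sum, ← Nat.cast_smul_eq_nsmul ℝ, smul_smul,
      smul_smul] at h1
    exact h1
  have hHf : ((1 + 3 * δ) * (1 + (k : ℝ) * q)) • f - H f ∈ closure C := by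
    have h1 := hP.cl_add (hziup 0) hHfS
    have e : (1 + 3 * δ) • f - z 0 + (((k : ℝ) * q * (1 + 3 * δ)) • f -
        H (fS w ({0}ᶜ : Finset (Fin (k + 1))))) = ((1 + 3 * δ) * (1 + (k : ℝ) * q)) • f - H f := by
      rw [← hfsplit, map_add, hHw0, hfsplit]
      have e2 : (1 + 3 * δ) * (1 + (k : ℝ) * q) = (1 + 3 * δ) + (k : ℝ) * q * (1 + 3 * δ) := by ring
      rw [e2, add_smul (1 + 3 * δ)]
      abel
    rwa [e] at h1
  set u0 : V n := κ • fS w ({0}ᶜ : Finset (Fin (k + 1))) + (1 / 400 : ℝ) • f with hu0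
  have hHu0 : (1 / 100 : ℝ) • f - H u0 ∈ closure C := by
    have h1 := hP.cl_smul hHfS hκ.le
    have h2 := hP.cl_smul hHf (t := 1 / 400) (by norm_num)
    have hc : κ * ((k : ℝ) * q * (1 + 3 * δ)) + 1 / 400 * ((1 + 3 * δ) * (1 + (k : ℝ) * q))
        ≤ 1 / 100 := by
      have hkq0 : 0 ≤ (k : ℝ) * q := by positivity
      have h3 : κ * ((k : ℝ) * q) ≤ 1 / 250 :=
        le_trans (mul_le_mul_of_nonneg_left hkq hκ.le) hqκ
      have h4 : κ * ((k : ℝ) * q * (1 + 3 * δ)) ≤ 1 / 250 * (1 + 3 * δ) := by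
        calc κ * ((k : ℝ) * q * (1 + 3 * δ)) = κ * ((k : ℝ) * q) * (1 + 3 * δ) := by ring
          _ ≤ _ := mul_le_mul_of_nonneg_right h3 (by linarith)
      have h5 : (1 + 3 * δ) * (1 + (k : ℝ) * q) ≤ (1 + 3 * δ) * 2 :=
        mul_le_mul_of_nonneg_left (by linarith) (by linarith)
      linarith
    have h3 := hP.cl_smul hfcl (sub_nonneg.mpr hc)
    have h4 := hP.cl_add (hP.cl_add h1 h2) h3
    have e : κ • (((k : ℝ) * q * (1 + 3 * δ)) • f - H (fS w ({0}ᶜ : Finset (Fin (k + 1))))) +
        (1 / 400 : ℝ) • (((1 + 3 * δ) * (1 + (k : ℝ) * q)) • f - H f) +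
        (1 / 100 - (κ * ((k : ℝ) * q * (1 + 3 * δ)) + 1 / 400 * ((1 + 3 * δ) * (1 + (k : ℝ) * q))))
          • f = (1 / 100 : ℝ) • f - H u0 := by
      rw [hu0, map_add, map_smul, map_smul, smul_sub, smul_sub, smul_smul, smul_smul, sub_smul,
        add_smul]
      abel
    rwa [e] at h4
  -- ATT
  obtain ⟨ξ, x, lam, hξ0, hξs, hξb, hξx, hl1, hl2, hHx⟩ :=
    hATT n C hP ⊤ f (w 0) φ H (3 * δ) (by linarith) (by linarith) (Submodule.mem_top) hfcl
      (Submodule.mem_top) (hwcl 0) hfw0 hφ.pos hφ.one hφf (fun _ _ => Submodule.mem_top) hHcl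
      (by rw [hHw0]; exact (hzw 0).1) (by rw [hHw0]; exact (hzw 0).2)
      (fun e _ r hr hφe he1 he2 => by
        obtain ⟨h1, h2⟩ := hκs w hwP 0 φ hφ e r hφe hr he1 he2
        have h3 := hHcl _ h1
        have h4 := hHcl _ h2
        rw [map_sub, map_smul] at h3
        rw [map_add, map_smul] at h4
        have h5 := hP.cl_smul hHu0 hr
        constructor
        · have h6 := hP.cl_add h5 h3
          have e1 : r • ((1 / 100 : ℝ) • f - H u0) + (r • H u0 - H e) = (r / 100) • f - H e := by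
            rw [smul_sub, smul_smul]
            have e2 : r * (1 / 100) = r / 100 := by ring
            rw [e2]; abel
          rwa [e1] at h6
        · have h6 := hP.cl_add h5 h4
          have e1 : r • ((1 / 100 : ℝ) • f - H u0) + (r • H u0 + H e) = (r / 100) • f + H e := by
            rw [smul_sub, smul_smul]
            have e2 : r * (1 / 100) = r / 100 := by ring
            rw [e2]; abel
          rwa [e1] at h6)
  have hξB : ∀ j, Bx C (10 * (3 * δ)) f (ξ j - w 0) := fun j => ⟨(hξb j).2.2.1, (hξb j).2.2.2⟩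
  have hξn : ∀ j, ‖ξ j - w 0‖ < ε₁ / 2 := by
    intro j
    have h1 := (hξB j).tr hP (by linarith) hf2
    have h2 := h1.norm hBn (by linarith)
    have e : (2 * B + 1) * (10 * (3 * δ) * 2) * ‖fW‖ = (2 * B + 1) * (60 * δ) * ‖fW‖ := by ring
    rw [e] at h2
    linarith
  -- the claim
  have hclaim : ∀ j, T (Function.update w 0 (ξ j)) := by
    intro j
    induction j with
    | zero =>
      rw [hξ0, Function.update_eq_self]
      exact hTw
    | succ j ih =>
      have h1 := hT.inv _ ih g hg s hs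
      have hpos := (hξs j).1
      have h2 := hT.scl _ h1 (fun i => if i = 0 then Real.exp (-(a 0 * σ)) * (φ (H (ξ j)))⁻¹
        else Real.exp (-(a i * σ))) (fun i => by
          split_ifs
          · positivity
          · positivity)
      have h3 : (fun i => (if i = 0 then Real.exp (-(a 0 * σ)) * (φ (H (ξ j)))⁻¹
          else Real.exp (-(a i * σ))) • (s • act g (Function.update w 0 (ξ j) i)))
          = Function.update z 0 (ξ (j + 1)) := by
        funext i
        by_cases hi : i = 0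
        · subst hi
          rw [if_pos rfl, Function.update_self, Function.update_self, (hξs j).2, hHa, smul_smul,
            smul_smul, smul_smul]
          congr 1
          ring
        · rw [if_neg hi, Function.update_of_ne hi, Function.update_of_ne hi, hact, smul_smul,
            ← Real.exp_add, neg_add_cancel, Real.exp_zero, one_smul]
      rw [h3] at h2
      have h4 := hmix w _ hTw h2 (fun i => ?_)
      · rw [Function.update_self] at h4
        exact h4
      · refine ⟨?_, ?_⟩
        · have := lt_of_lt_of_le (hnear i).1 (min_le_right _ _)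
          linarith
        · by_cases hi : i = 0
          · subst hi
            rw [Function.update_self]
            have h5 := lt_of_lt_of_le (hnear 0).1 (min_le_right _ _)
            have h6 := hξn (j + 1)
            have e : ξ (j + 1) - W 0 = (ξ (j + 1) - w 0) + (w 0 - W 0) := by abel
            rw [e]
            refine lt_of_le_of_lt (norm_add_le _ _) ?_
            linarith
          · rw [Function.update_of_ne hi]
            have := lt_of_lt_of_le (hnear i).2 (min_le_right _ _)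
            linarith
  -- the limit
  have hxB : Bx C (10 * (3 * δ)) f (x - w 0) := Bx.lim hξB (hξx.sub_const (w 0))
  have hsum : ∑ i, Function.update w 0 x i = f + (x - w 0) := by
    rw [← fS_add_compl (Function.update w 0 x) {0}, fS_single, Function.update_self,
      fS_update w 0 x (by simp), ← hfsplit]
    abel
  have hfw : (10 / 9 : ℝ) • (∑ i, Function.update w 0 x i) - f ∈ closure C := by
    rw [hsum]
    have h1 := hP.cl_smul hxB.2 (t := 10 / 9) (by norm_num)
    have h2 := hP.cl_smul hfcl (t := 1 / 9 - 10 / 9 * (10 * (3 * δ))) (by linarith)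
    have h3 := hP.cl_add h1 h2
    have e : (10 / 9 : ℝ) • ((10 * (3 * δ)) • f + (x - w 0)) + (1 / 9 - 10 / 9 * (10 * (3 * δ))) • f
        = (10 / 9 : ℝ) • (f + (x - w 0)) - f := by
      rw [smul_add, smul_smul, sub_smul, smul_add]
      have e2 : (10 / 9 : ℝ) • f = (1 / 9 : ℝ) • f + f := by
        have : (10 / 9 : ℝ) = 1 / 9 + 1 := by norm_num
        rw [this, add_smul, one_smul]
      rw [e2]
      abel
    rwa [e] at h3
  have hwxC : ∑ i, Function.update w 0 x i ∈ C := by
    have h1 : (10 / 9 : ℝ) • (∑ i, Function.update w 0 x i) ∈ C := hP.mem_of_le hfC hfw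
    exact (hP.smul_iff (by norm_num)).mp h1
  have hTx : T (Function.update w 0 x) := by
    refine hT.cld (fun m => Function.update w 0 (ξ m)) _ hclaim (fun i => ?_) hwxC
    by_cases hi : i = 0
    · subst hi
      simp only [Function.update_self]
      exact hξx
    · simp only [Function.update_of_ne hi]
      exact tendsto_const_nhds
  refine ⟨Function.update w 0 x, z, g, s, σ, lam, hσ1, hTx, hg, hs, hl1, hl2, ?_, ?_, ?_⟩
  · rw [Function.update_self]
    have h1 := hHx
    rw [hHa] at h1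
    have h2 := congrArg (fun y => Real.exp (a 0 * σ) • y) h1
    simp only [smul_smul] at h2
    rw [← mul_assoc, ← Real.exp_add, add_neg_cancel, Real.exp_zero, one_mul] at h2
    exact h2
  · intro i hi
    rw [Function.update_of_ne hi]
    exact hact i
  · intro i hi
    rw [Function.update_of_ne hi]
    have h1 := (hzw i).tr hP (by linarith) hfw
    have hcl' : (∑ j, Function.update w 0 x j) ∈ closure C := subset_closure hwxC
    have h2 := h1.mono hP hcl' (r' := ε) (by linarith)
    exact ⟨hzcl i, h2.1, h2.2⟩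

end Pool.Agent.KT3.H86
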