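import Pool.Agent.KT3.StmtsM

/-!
Squad KT3, row ANI: invariance of the class `AN`.
-/

set_option autoImplicit false

open Matrix Filter Topology

namespace Pool.Agent.KT3.H86

open Pool.Agent.PFS Pool.Agent.PFJ Pool.Agent.NBT Pool.Agent.KT3

theorem finrank_img {n : ℕ} (g : GL (Fin n) ℝ) (L : Submodule ℝ (V n)) :
    Module.finrank ℝ (img g L) = Module.finrank ℝ L := by
  unfold img
  exact ((Submodule.equivMapOfInjective
    (Matrix.mulVecLin (g : Matrix (Fin n) (Fin n) ℝ)) (CC.act_injective g) L).finrank_eq).symm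

/-- the group element as a linear map -/
noncomputable def Ag {n : ℕ} (g : GL (Fin n) ℝ) : V n →ₗ[ℝ] V n :=
  Matrix.mulVecLin (g : Matrix (Fin n) (Fin n) ℝ)

theorem Ag_apply {n : ℕ} (g : GL (Fin n) ℝ) (x : V n) : Ag g x = act g x := rfl

theorem ani (_hWII : WiiStmt) (hLFI : LfiStmt) (hLFM : LfmStmt) : AniStmt := by
  intro n C Γ d q h3 w N hAN
  have hCC : CC C Γ := h3.toHI.toHK.toCC
  refine ⟨?_, ?_, ?_⟩
  · intro r hr
    refine ⟨?_, hAN.cod, N.smul_mem _ hAN.mem, ?_⟩
    · exact ((_hWII n C Γ 3 I01 d h3.toHI w hAN.wl).1 r hr).1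
    · intro x hx
      obtain ⟨p, hp⟩ := hAN.prj x (((hLFI n C Γ d h3 w hAN.wl x).1 r hr).mp hx)
      exact ⟨p, hp.idm, hp.pos, hp.ker, hp.fx, by rw [map_smul, hp.fv]⟩
  · intro g hg s hs
    refine ⟨?_, ?_, ?_, ?_⟩
    · exact ((_hWII n C Γ 3 I01 d h3.toHI w hAN.wl).2.1 g hg s hs).1
    · rw [finrank_img]
      exact hAN.cod
    · exact (img g N).smul_mem _ (mem_img.mpr ⟨w 1, hAN.mem, rfl⟩)
    · intro x hx
      set x' : V n := s⁻¹ • act g⁻¹ x with hx'
      have hxx : s • act g x' = x := by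
        rw [hx', CC.act_smul, CC.act_act_inv, smul_smul, mul_inv_cancel₀ hs.ne', one_smul]
      have hlf : Lf C w x' := by
        rw [← (hLFI n C Γ d h3 w hAN.wl x').2.1 g hg s hs, hxx]
        exact hx
      obtain ⟨p, hp⟩ := hAN.prj x' hlf
      have happ : ∀ y, ((Ag g).comp (p.comp (Ag g⁻¹))) y = act g (p (act g⁻¹ y)) := fun y => rfl
      refine ⟨(Ag g).comp (p.comp (Ag g⁻¹)), ?_, ?_, ?_, ?_, ?_⟩
      · intro y
        rw [happ, happ, CC.act_inv_act, hp.idm]
      · intro y hy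
        rw [happ]
        exact hCC.act_cl hg (hp.pos _ (hCC.act_cl (Γ.inv_mem hg) hy))
      · intro y
        rw [happ]
        constructor
        · intro h0
          have h1 : p (act g⁻¹ y) = 0 := by
            apply CC.act_injective g
            rw [h0, CC.act_zero]
          exact mem_img.mpr ⟨act g⁻¹ y, (hp.ker _).mp h1, CC.act_act_inv g y⟩
        · intro h0
          obtain ⟨z, hz, hzy⟩ := mem_img.mp h0
          rw [← hzy, CC.act_inv_act, (hp.ker z).mpr hz, CC.act_zero]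
      · rw [happ, ← hxx, CC.act_smul, CC.act_inv_act, map_smul, hp.fx, CC.act_smul]
      · rw [happ, CC.act_smul, CC.act_inv_act, map_smul, hp.fv, CC.act_smul]
  · intro x hx
    obtain ⟨hwx, -, hly, -, -, -, -⟩ := (hLFM n C Γ d h3 w hAN.wl).2 x hx
    have h1 : up w x 1 = w 1 := Function.update_of_ne (by decide) _ _
    have h2 : up w x 2 = w 2 := Function.update_of_ne (by decide) _ _
    refine ⟨hwx, hAN.cod, by rw [h1]; exact hAN.mem, ?_⟩
    intro y hy
    obtain ⟨p, hp⟩ := hAN.prj y ((hly y).mp hy)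
    rw [h2]
    exact ⟨p, hp⟩

end Pool.Agent.KT3.H86
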