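import Pool.Agent.KT3.StmtsD

/-!
Squad KT3, row MNL: minimal leaf-saturated families, without Zorn.
-/

set_option autoImplicit false

open Matrix Filter Topology

namespace Pool.Agent.KT3.H86

open Pool.Agent.PFS Pool.Agent.PFJ Pool.Agent.NBT Pool.Agent.KT3

section

variable {n : ℕ} {C : Set (V n)} {Γ : Subgroup (GL (Fin n) ℝ)} {d : ℕ}

theorem up_zero (w : Fin 3 → V n) (x : V n) : up w x 0 = x := Function.update_self _ _ _

theorem up_ne (w : Fin 3 → V n) (x : V n) {i : Fin 3} (hi : i ≠ 0) : up w x i = w i :=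
  Function.update_of_ne hi _ _

theorem at1_one (w : Fin 3 → V n) (t : ℝ) : at1 w t 1 = Real.exp t • w 1 := by
  unfold at1
  rw [Function.update_self]

theorem at1_ne (w : Fin 3 → V n) (t : ℝ) {i : Fin 3} (hi : i ≠ 1) : at1 w t i = w i := by
  unfold at1
  rw [Function.update_of_ne hi]

theorem at1_zero (w : Fin 3 → V n) : at1 w 0 = w := by
  funext i
  by_cases hi : i = 1
  · subst hi
    rw [at1_one, Real.exp_zero, one_smul]
  · rw [at1_ne w 0 hi]

theorem up_self (w : Fin 3 → V n) : up w (w 0) = w := Function.update_eq_self _ _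

theorem up_up (w : Fin 3 → V n) (x y : V n) : up (up w y) x = up w x :=
  Function.update_idem _ _ _

/-- the tuple `s • act g (at1 (up w x) t)` under the group -/
theorem tup_inv (w : Fin 3 → V n) (g g' : GL (Fin n) ℝ) (s s' t : ℝ) (x : V n) (i : Fin 3) :
    s' • act g' (at1 (up (fun i => s • act g (w i)) (s • act g x)) t i)
      = (s' * s) • act (g' * g) (at1 (up w x) t i) := by
  rw [CC.act_mul]
  by_cases hi : i = 1
  · subst hi
    rw [at1_one, at1_one, up_ne _ _ (by decide), up_ne _ _ (by decide), CC.act_smul, CC.act_smul,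
      CC.act_smul, CC.act_smul]
    simp only [smul_smul]
    congr 1
    ring
  · rw [at1_ne _ _ hi, at1_ne _ _ hi]
    by_cases hi0 : i = 0
    · subst hi0
      rw [up_zero, up_zero, CC.act_smul, smul_smul]
    · rw [up_ne _ _ hi0, up_ne _ _ hi0, CC.act_smul, smul_smul]

theorem at1_up_at1 (w : Fin 3 → V n) (x : V n) (t t' : ℝ) :
    at1 (up (at1 w t') x) t = at1 (up w x) (t' + t) := by
  funext i
  by_cases hi : i = 1
  · subst hi
    rw [at1_one, at1_one, up_ne _ _ (by decide), up_ne _ _ (by decide), at1_one, smul_smul,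
      Real.exp_add, mul_comm]
  · rw [at1_ne _ _ hi, at1_ne _ _ hi]
    by_cases hi0 : i = 0
    · subst hi0
      rw [up_zero, up_zero]
    · rw [up_ne _ _ hi0, up_ne _ _ hi0, at1_ne _ _ hi]

theorem ph_at1 {w : Fin 3 → V n} {t : ℝ} {φ : V n →ₗ[ℝ] ℝ} (h : Ph C (at1 w t) 0 φ) :
    Ph C w 0 φ := by
  refine ⟨h.pos, ?_, ?_⟩
  · have := h.one
    rwa [at1_ne _ _ (by decide)] at this
  · intro j hj
    have h1 := h.zero j hj
    by_cases hj1 : j = 1
    · subst hj1
      rw [at1_one, map_smul, smul_eq_mul] at h1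
      rcases mul_eq_zero.mp h1 with h2 | h2
      · exact absurd h2 (Real.exp_pos t).ne'
      · exact h2
    · rwa [at1_ne _ _ hj1] at h1

theorem lf_at1 (hLFI : LfiStmt) (h3 : H3 C Γ d) {w : Fin 3 → V n} (hw : WI C Γ I01 d w) {t : ℝ}
    {x : V n} : Lf C (at1 w t) x ↔ Lf C w x := by
  have h := (hLFI n C Γ d h3 w hw x).1 (fun i => if i = 1 then Real.exp t else 1) (by
    intro i
    by_cases hi : i = 1
    · simp only [hi, if_true]
      exact Real.exp_pos t
    · simp only [hi, if_false]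
      exact one_pos)
  have e : (fun i => (if i = 1 then Real.exp t else 1 : ℝ) • w i) = at1 w t := by
    funext i
    by_cases hi : i = 1
    · subst hi
      rw [at1_one, if_pos rfl]
    · rw [at1_ne _ _ hi, if_neg hi, one_smul]
  rw [e] at h
  exact h

/-- the members of `T` whose leaf orbit avoids `U` -/
def Av (C : Set (V n)) (Γ : Subgroup (GL (Fin n) ℝ)) (U : Set (Fin 3 → V n))
    (T : (Fin 3 → V n) → Prop) (w : Fin 3 → V n) : Prop :=
  T w ∧ ∀ g ∈ Γ, ∀ s : ℝ, 0 < s → ∀ (t : ℝ) (φ : V n →ₗ[ℝ] ℝ), Ph C w 0 φ → ∀ x, Lf C w x →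
    φ x = 1 → (fun i => s • act g (at1 (up w x) t i)) ∉ U

theorem ls_av (hLFI : LfiStmt) (hLFM : LfmStmt) (hLFC : LfcStmt) (hPHU : PhuStmt) (hPHE : PheStmt)
    (hPHC : PhcStmt) (h3 : H3 C Γ d) {U : Set (Fin 3 → V n)} (hU : IsOpen U)
    {T : (Fin 3 → V n) → Prop} (hT : LS C Γ d T) : LS C Γ d (Av C Γ U T) where
  wl := fun w hw => hT.wl w hw.1
  inv := by
    intro w hw g hg s hs
    refine ⟨hT.inv w hw.1 g hg s hs, ?_⟩
    intro g' hg' s' hs' t φ' hφ' x' hx' hone
    have hwl := hT.wl w hw.1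
    obtain ⟨φ, hφ⟩ := hPHE n C Γ 3 h3.toHI.toHK w hwl.pes 0
    set x : V n := s⁻¹ • act g⁻¹ x' with hx
    have hxx : s • act g x = x' := by
      rw [hx, CC.act_smul, CC.act_act_inv, smul_smul, mul_inv_cancel₀ hs.ne', one_smul]
    have hlf : Lf C w x := by
      rw [← (hLFI n C Γ d h3 w hwl x).2.1 g hg s hs, hxx]
      exact hx'
    have hval : φ x = 1 := by
      have h1 := (hPHU n C Γ 3 h3.toHI.toHK w hwl.pes 0 φ hφ).2.2.2.1 g hg s hs φ' hφ' x
      rw [hxx, hone] at h1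
      exact h1.symm
    have h2 := hw.2 (g' * g) (Γ.mul_mem hg' hg) (s' * s) (mul_pos hs' hs) t φ hφ x hlf hval
    have e : (fun i => s' • act g' (at1 (up (fun i => s • act g (w i)) x') t i))
        = fun i => (s' * s) • act (g' * g) (at1 (up w x) t i) := by
      funext i
      rw [← hxx]
      exact tup_inv w g g' s s' t x i
    rw [e]
    exact h2
  scl := by
    intro w hw t'
    refine ⟨hT.scl w hw.1 t', ?_⟩
    intro g hg s hs t φ hφ x hx hone
    have h2 := hw.2 g hg s hs (t' + t) φ (ph_at1 hφ) x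
      ((lf_at1 hLFI h3 (hT.wl w hw.1)).mp hx) hone
    rw [at1_up_at1]
    exact h2
  lf := by
    intro w hw φ hφ y hy hone
    refine ⟨hT.lf w hw.1 φ hφ y hy hone, ?_⟩
    intro g hg s hs t φ' hφ' x hx hone'
    have hwl := hT.wl w hw.1
    obtain ⟨hwy, -, hly, -, -, -, -⟩ := (hLFM n C Γ d h3 w hwl).2 y hy
    have hval : φ x = 1 := by
      have h1 := (hPHU n C Γ 3 h3.toHI.toHK (up w y) hwy.pes 0 φ' hφ').1 φ hφ.pos (by
        intro j hj
        rw [up_ne _ _ hj]
        exact hφ.zero j hj) x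
      rw [up_zero, hone, hone', mul_one] at h1
      exact h1
    have h2 := hw.2 g hg s hs t φ hφ x ((hly x).mp hx) hval
    rw [up_up]
    exact h2
  cld := by
    intro x w hx hlim hC
    have hTw : T w := hT.cld x w (fun m => (hx m).1) hlim hC
    refine ⟨hTw, ?_⟩
    intro g hg s hs t φ hφ y hy hone hmem
    have hwl := hT.wl w hTw
    have hwm : ∀ m, WI C Γ I01 d (x m) := fun m => hT.wl _ (hx m).1
    obtain ⟨z, hz, hev⟩ := hLFC n C Γ d h3 x w hwm hwl hlim y hy
    choose φm hφm using fun m => hPHE n C Γ 3 h3.toHI.toHK (x m) (hwm m).pes 0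
    have hlim1 : Tendsto (fun m => φm m (z m)) atTop (𝓝 1) := by
      rw [← hone]
      exact hPHC n C Γ 3 h3.toHI.toHK x w (fun m => (hwm m).pes) hwl.pes hlim 0 φm φ z y hφm hφ hz
    have hev1 : ∀ᶠ m in atTop, 0 < φm m (z m) :=
      hlim1.eventually (lt_mem_nhds one_pos)
    have hlim2 : Tendsto (fun m => (φm m (z m))⁻¹ • z m) atTop (𝓝 y) := by
      have h1 := (hlim1.inv₀ one_ne_zero).smul hz
      rwa [inv_one, one_smul] at h1
    have hlim3 : Tendsto (fun m => fun i => s • act g (at1 (up (x m) ((φm m (z m))⁻¹ • z m)) t i))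
        atTop (𝓝 (fun i => s • act g (at1 (up w y) t i))) := by
      rw [tendsto_pi_nhds]
      intro i
      apply Tendsto.const_smul
      have h4 : Tendsto (fun m => at1 (up (x m) ((φm m (z m))⁻¹ • z m)) t i) atTop
          (𝓝 (at1 (up w y) t i)) := by
        by_cases hi : i = 1
        · subst hi
          simp only [at1_one]
          rw [up_ne w y (by decide)]
          have : ∀ m, up (x m) ((φm m (z m))⁻¹ • z m) 1 = x m 1 := fun m => up_ne _ _ (by decide)
          simp only [this]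
          exact (hlim 1).const_smul _
        · rw [at1_ne _ _ hi]
          have : ∀ m, at1 (up (x m) ((φm m (z m))⁻¹ • z m)) t i
              = up (x m) ((φm m (z m))⁻¹ • z m) i := fun m => at1_ne _ _ hi
          simp only [this]
          by_cases hi0 : i = 0
          · subst hi0
            rw [up_zero]
            have : ∀ m, up (x m) ((φm m (z m))⁻¹ • z m) 0 = (φm m (z m))⁻¹ • z m :=
              fun m => up_zero _ _
            simp only [this]
            exact hlim2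
          · rw [up_ne _ _ hi0]
            have : ∀ m, up (x m) ((φm m (z m))⁻¹ • z m) i = x m i := fun m => up_ne _ _ hi0
            simp only [this]
            exact hlim i
      exact ((CC.act_continuous g).tendsto _).comp h4
    have h5 : ∀ᶠ m in atTop, (fun i => s • act g
        (at1 (up (x m) ((φm m (z m))⁻¹ • z m)) t i)) ∈ U :=
      hlim3.eventually (hU.mem_nhds hmem)
    obtain ⟨m, ⟨hm1, hm2⟩, hm3⟩ := ((h5.and hev).and hev1).exists
    have h6 : Lf C (x m) ((φm m (z m))⁻¹ • z m) :=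
      ((hLFI n C Γ d h3 (x m) (hwm m) (z m)).2.2 _ (inv_pos.mpr hm3)).mpr hm2
    refine (hx m).2 g hg s hs t (φm m) (hφm m) _ h6 ?_ hm1
    rw [map_smul, smul_eq_mul, inv_mul_cancel₀ hm3.ne']

open scoped Classical in
/-- the decreasing sequence of families -/
noncomputable def Ts (C : Set (V n)) (Γ : Subgroup (GL (Fin n) ℝ)) (U : ℕ → Set (Fin 3 → V n))
    (T0 : (Fin 3 → V n) → Prop) : ℕ → (Fin 3 → V n) → Prop
  | 0 => T0
  | j + 1 => if ∃ w, Av C Γ (U j) (Ts C Γ U T0 j) w then Av C Γ (U j) (Ts C Γ U T0 j)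
      else Ts C Γ U T0 j

theorem ts_pos {U : ℕ → Set (Fin 3 → V n)} {T0 : (Fin 3 → V n) → Prop} {j : ℕ}
    (h : ∃ w, Av C Γ (U j) (Ts C Γ U T0 j) w) :
    Ts C Γ U T0 (j + 1) = Av C Γ (U j) (Ts C Γ U T0 j) := by
  rw [Ts, if_pos h]

theorem ts_neg {U : ℕ → Set (Fin 3 → V n)} {T0 : (Fin 3 → V n) → Prop} {j : ℕ}
    (h : ¬ ∃ w, Av C Γ (U j) (Ts C Γ U T0 j) w) :
    Ts C Γ U T0 (j + 1) = Ts C Γ U T0 j := by
  rw [Ts, if_neg h]

theorem ts_fam (hav : ∀ U : Set (Fin 3 → V n), IsOpen U → ∀ T : (Fin 3 → V n) → Prop,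
      LS C Γ d T → LS C Γ d (Av C Γ U T))
    {U : ℕ → Set (Fin 3 → V n)} (hU : ∀ j, IsOpen (U j))
    {T0 : (Fin 3 → V n) → Prop} (hT : LS C Γ d T0) (hne : ∃ w, T0 w) :
    ∀ j, LS C Γ d (Ts C Γ U T0 j) ∧ ∃ w, Ts C Γ U T0 j w := by
  intro j
  induction j with
  | zero => exact ⟨hT, hne⟩
  | succ j ih =>
    by_cases h : ∃ w, Av C Γ (U j) (Ts C Γ U T0 j) w
    · rw [ts_pos h]
      exact ⟨hav (U j) (hU j) _ ih.1, h⟩
    · rw [ts_neg h]
      exact ih

theorem ts_step {U : ℕ → Set (Fin 3 → V n)} {T0 : (Fin 3 → V n) → Prop} (j : ℕ)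
    (w : Fin 3 → V n) (h : Ts C Γ U T0 (j + 1) w) : Ts C Γ U T0 j w := by
  by_cases h' : ∃ w, Av C Γ (U j) (Ts C Γ U T0 j) w
  · rw [ts_pos h'] at h
    exact h.1
  · rw [ts_neg h'] at h
    exact h

theorem ts_le {U : ℕ → Set (Fin 3 → V n)} {T0 : (Fin 3 → V n) → Prop} {j l : ℕ} (hjl : j ≤ l)
    (w : Fin 3 → V n) (h : Ts C Γ U T0 l w) : Ts C Γ U T0 j w := by
  induction hjl with
  | refl => exact h
  | step _ ih => exact ih (ts_step _ w h)

end

/-- **MNL**. -/
theorem mnl (hFAY : FayStmt) (_hWII : WiiStmt) (hLFI : LfiStmt) (hLFM : LfmStmt) (hLFC : LfcStmt)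
    (hPHU : PhuStmt) (hPHE : PheStmt) (hPHC : PhcStmt) : MnlStmt := by
  intro n C Γ d h3 T0 hT0 hne
  have hCC : CC C Γ := h3.toHI.toHK.toCC
  obtain ⟨b, hbc, -, hb⟩ := TopologicalSpace.exists_countable_basis (Fin 3 → V n)
  obtain ⟨U, hUb⟩ := (hbc.insert ∅).exists_eq_range (Set.insert_nonempty _ _)
  have hU : ∀ j, IsOpen (U j) := by
    intro j
    have hj : U j ∈ insert ∅ b := by
      rw [hUb]
      exact Set.mem_range_self j
    rcases hj with hj | hj
    · rw [hj]
      exact isOpen_empty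
    · exact hb.isOpen hj
  have hfam := ts_fam (C := C) (Γ := Γ) (d := d)
    (fun U hU T hT => ls_av hLFI hLFM hLFC hPHU hPHE hPHC h3 hU hT) hU hT0 hne
  have hT : LS C Γ d (fun w => ∀ j, Ts C Γ U T0 j w) := by
    refine ⟨?_, ?_, ?_, ?_, ?_⟩
    · intro w hw
      exact hT0.wl w (hw 0)
    · intro w hw g hg s hs j
      exact (hfam j).1.inv w (hw j) g hg s hs
    · intro w hw t j
      exact (hfam j).1.scl w (hw j) t
    · intro w hw φ hφ x hx hone j
      exact (hfam j).1.lf w (hw j) φ hφ x hx hone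
    · intro x w hx hlim hC j
      exact (hfam j).1.cld x w (fun m => hx m j) hlim hC
  refine ⟨fun w => ∀ j, Ts C Γ U T0 j w, ⟨hT, ?_, ?_⟩, fun w hw => hw 0⟩
  · choose x hx using fun j => (hfam j).2
    have hpes : ∀ m, IsPES C Γ (x m) := fun m => (hT0.wl _ (ts_le (Nat.zero_le m) (x m) (hx m))).pes
    obtain ⟨φ, g, s, p, hφ, hg, hs, hp, hlim⟩ :=
      (hFAY n C Γ 3 hCC (by norm_num)).cpt x hpes
    have hy : ∀ m j, j ≤ m → Ts C Γ U T0 j (fun i => s m • act (g m) (x (φ m) i)) := by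
      intro m j hj
      have h1 : Ts C Γ U T0 j (x (φ m)) :=
        ts_le (hj.trans (hφ.id_le m)) _ (hx (φ m))
      exact (hfam j).1.inv _ h1 (g m) (hg m) (s m) (hs m)
    have hsum : Tendsto (fun m => ∑ i, s m • act (g m) (x (φ m) i)) atTop (𝓝 p) := by
      refine hlim.congr fun m => ?_
      rw [CC.act_sum, Finset.smul_sum]
    obtain ⟨ψ, w, hψ, hw, hwp, -⟩ := Pool.Agent.PFS.H37.lpsF n C Γ hCC (Fin 3)
      (by rw [Fintype.card_fin]; norm_num) (fun m i => s m • act (g m) (x (φ m) i)) p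
      (fun m => (hT0.wl _ (hy m 0 (Nat.zero_le m))).pes) hp hsum
    refine ⟨w, ?_⟩
    intro j
    refine (hfam j).1.cld (fun m i => s (ψ (m + j)) • act (g (ψ (m + j))) (x (φ (ψ (m + j))) i)) w
      ?_ ?_ (by rw [hwp]; exact hp)
    · intro m
      exact hy (ψ (m + j)) j ((Nat.le_add_left j m).trans (hψ.id_le (m + j)))
    · intro i
      exact (hw i).comp (tendsto_add_atTop_nat j)
  · intro T' hT' hsub hne' w hw
    by_contra hnot
    have h1 : w ∉ closure {z | T' z} := by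
      intro hcl
      rw [mem_closure_iff_seq_limit] at hcl
      obtain ⟨x, hx, hlim⟩ := hcl
      refine hnot (hT'.cld x w hx ?_ (PES.sum_mem (hT.wl w hw).pes.1))
      intro i
      exact (tendsto_pi_nhds.1 hlim) i
    have h2 : (closure {z | T' z})ᶜ ∈ 𝓝 w := isClosed_closure.isOpen_compl.mem_nhds h1
    obtain ⟨u, hub, hwu, hsubu⟩ := hb.mem_nhds_iff.1 h2
    have h3' : u ∈ insert ∅ b := Or.inr hub
    rw [hUb] at h3'
    obtain ⟨j, hj⟩ := h3'
    have h4 : ∀ z, T' z → Av C Γ (U j) (Ts C Γ U T0 j) z := by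
      intro z hz
      refine ⟨hsub z hz j, ?_⟩
      intro g hg s hs t φ hφ x hx hone hmem
      have h5 : T' (fun i => s • act g (at1 (up z x) t i)) :=
        hT'.inv _ (hT'.scl _ (hT'.lf z hz φ hφ x hx hone) t) g hg s hs
      rw [hj] at hmem
      exact hsubu hmem (subset_closure h5)
    obtain ⟨z, hz⟩ := hne'
    have h6 : Ts C Γ U T0 (j + 1) w := hw (j + 1)
    rw [ts_pos ⟨z, h4 z hz⟩] at h6
    obtain ⟨φ, hφ⟩ := hPHE n C Γ 3 h3.toHI.toHK w (hT.wl w hw).pes 0
    have h7 := h6.2 1 Γ.one_mem 1 one_pos 0 φ hφ (w 0) (hLFM n C Γ d h3 w (hT.wl w hw)).1 hφ.one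
    have h8 : (fun i => (1 : ℝ) • act (1 : GL (Fin n) ℝ) (at1 (up w (w 0)) 0 i)) = w := by
      funext i
      rw [CC.act_one, one_smul, at1_zero, up_self]
    rw [h8, hj] at h7
    exact h7 hwu

end Pool.Agent.KT3.H86
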